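import Pool.Agent.Y417.HG.Dya

/-!
Dyadic partial sums of the Haar expansion: contraction, convergence, step functions
(statement `S_EXP` of `Pool.Agent.Y105.HG.Stm`).
-/

set_option autoImplicit false

open MeasureTheory Filter Topology
open scoped ENNReal

namespace Pool.Agent.Y417.HG

open Pool.Agent.Y105.HG

instance : IsFiniteMeasure leb := ⟨by
  unfold leb; rw [Measure.restrict_apply_univ, Real.volume_Icc]; simp⟩

lemma real_J (N k : ℕ) : volume.real (J N k) = (1 / 2) ^ N := by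
  rw [Measure.real, vol_J, ENNReal.toReal_ofReal (by positivity)]

lemma vol_J_ne_top (N k : ℕ) : volume (J N k) ≠ ∞ := by
  rw [vol_J]; exact ENNReal.ofReal_ne_top

lemma vol_J_ne_zero (N k : ℕ) : volume (J N k) ≠ 0 := by
  rw [vol_J, ne_eq, ENNReal.ofReal_eq_zero, not_le]
  positivity

lemma integrable_step {E : Type} [NormedAddCommGroup E] {h : ℝ → E} (N : ℕ)
    (hc : ∀ k, ∀ x ∈ J N k, ∀ y ∈ J N k, h x = h y) : Integrable h leb := by
  rw [leb_eq, ← iUnion_J N]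
  show IntegrableOn h _ volume
  rw [integrableOn_finset_iUnion]
  intro k _
  have hne : ((k : ℝ) / 2 ^ N) ∈ J N k := by
    refine ⟨le_rfl, ?_⟩
    gcongr
    linarith
  have h1 : IntegrableOn (fun _ : ℝ => h ((k : ℝ) / 2 ^ N)) (J N k) volume :=
    integrableOn_const (vol_J_ne_top N k)
  exact h1.congr_fun (fun x hx => hc k _ hne _ hx) (meas_J N k)

variable {𝕜 : Type} [RCLike 𝕜]

lemma int_J_const {E : Type} [NormedAddCommGroup E] [NormedSpace ℝ E] [CompleteSpace E]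
    {h : ℝ → E} {N k : ℕ} {c : E} (hc : ∀ x ∈ J N k, h x = c) :
    ∫ x in J N k, h x = ((1 / 2 : ℝ) ^ N) • c := by
  rw [setIntegral_congr_fun (meas_J N k) hc, setIntegral_const, real_J]

/-- part 3 -/
theorem exp3 (N : ℕ) (f : ℝ → 𝕜) (Φ : 𝕜 → 𝕜) {x : ℝ} (hx : x ∈ Set.Ico (0 : ℝ) 1) :
    EN N (fun y => Φ (EN N f y)) x = Φ (EN N f x) := by
  have hk := floor_lt (N := N) hx
  have hxJ : x ∈ J N ⌊(2 : ℝ) ^ N * x⌋₊ := (mem_J hx.1).2 rfl
  have hint : Integrable (fun y => Φ (EN N f y)) leb := by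
    refine integrable_step N fun k y hy z hz => ?_
    rw [EN_const f N k hy hz]
  rw [EN_avg hint N _ hk x hxJ,
    int_J_const (c := Φ (EN N f x)) (fun y hy => by rw [EN_const f N _ hy hxJ]),
    RCLike.real_smul_eq_coe_mul, ← mul_assoc]
  have : (2 : 𝕜) ^ N * (((1 / 2 : ℝ) ^ N : ℝ) : 𝕜) = 1 := by
    push_cast
    rw [← mul_pow]
    have : (2 : 𝕜) * (1 / 2) = 1 := by norm_num
    rw [this, one_pow]
  rw [this, one_mul]

lemma EN_norm_integrable (N : ℕ) (f : ℝ → 𝕜) (r : ℝ) :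
    Integrable (fun x => ‖EN N f x‖ ^ r) leb := by
  refine integrable_step N fun k y hy z hz => ?_
  rw [EN_const f N k hy hz]

/-- part 1 -/
theorem exp1 {r : ℝ} (hr : 1 ≤ r) (N : ℕ) {f : ℝ → 𝕜} (hf : MemLp f (ENNReal.ofReal r) leb) :
    ∫ x, ‖EN N f x‖ ^ r ∂leb ≤ ∫ x, ‖f x‖ ^ r ∂leb := by
  have hr0 : 0 < r := by linarith
  have hfi : Integrable f leb := hf.integrable (by
    rw [← ENNReal.ofReal_one]; exact ENNReal.ofReal_le_ofReal hr)
  have hfr : Integrable (fun x => ‖f x‖ ^ r) leb := by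
    have := hf.integrable_norm_rpow (by simpa using hr0) ENNReal.ofReal_ne_top
    rwa [ENNReal.toReal_ofReal hr0.le] at this
  rw [int_split (EN_norm_integrable N f r) N, int_split hfr N]
  refine Finset.sum_le_sum fun k hk => ?_
  have hk := Finset.mem_range.1 hk
  set I : 𝕜 := (2 : 𝕜) ^ N * ∫ y in J N k, f y with hI
  have h1 : ∫ x in J N k, ‖EN N f x‖ ^ r = (1 / 2 : ℝ) ^ N * ‖I‖ ^ r := by
    rw [int_J_const (c := ‖I‖ ^ r) (fun x hx => by rw [EN_avg hfi N k hk x hx]), smul_eq_mul]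
  have h2 : ‖I‖ ≤ ⨍ y in J N k, ‖f y‖ := by
    rw [setAverage_eq, real_J, hI, norm_mul, norm_pow, smul_eq_mul]
    have e1 : ‖(2 : 𝕜)‖ = 2 := by simp
    have e2 : ((1 / 2 : ℝ) ^ N)⁻¹ = 2 ^ N := by rw [one_div, inv_pow, inv_inv]
    rw [e1, e2]
    exact mul_le_mul_of_nonneg_left (norm_integral_le_integral_norm _) (by positivity)
  have h3 : (⨍ y in J N k, ‖f y‖) ^ r ≤ ⨍ y in J N k, ‖f y‖ ^ r := by
    have hcv := convexOn_rpow hr
    have hct : ContinuousOn (fun x : ℝ => x ^ r) (Set.Ici 0) :=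
      (Real.continuous_rpow_const hr0.le).continuousOn
    exact hcv.map_set_average_le hct isClosed_Ici (vol_J_ne_zero N k) (vol_J_ne_top N k)
      (Eventually.of_forall fun x => norm_nonneg _) (int_J hfi hk).norm (int_J hfr hk)
  rw [h1]
  calc (1 / 2 : ℝ) ^ N * ‖I‖ ^ r ≤ (1 / 2 : ℝ) ^ N * (⨍ y in J N k, ‖f y‖) ^ r := by gcongr
    _ ≤ (1 / 2 : ℝ) ^ N * ⨍ y in J N k, ‖f y‖ ^ r := by gcongr
    _ = ∫ y in J N k, ‖f y‖ ^ r := by
        rw [setAverage_eq, real_J, smul_eq_mul, ← mul_assoc, mul_inv_cancel₀ (by positivity),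
          one_mul]

/-- the partial sums converge almost everywhere -/
theorem EN_tendsto {f : ℝ → 𝕜} (hf : Integrable f leb) :
    ∀ᵐ x ∂leb, Tendsto (fun N => EN N f x) atTop (𝓝 (f x)) := by
  have hloc : LocallyIntegrable ((Set.Ico (0 : ℝ) 1).indicator f) volume := by
    have : Integrable ((Set.Ico (0 : ℝ) 1).indicator f) volume := by
      rw [integrable_indicator_iff measurableSet_Ico]
      rw [leb_eq] at hf
      exact hf
    exact this.locallyIntegrable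
  have hae := IsUnifLocDoublingMeasure.ae_tendsto_average (μ := (volume : Measure ℝ)) hloc 1
  rw [leb_eq, ae_restrict_iff' measurableSet_Ico]
  filter_upwards [hae] with x hx hx01
  have hlim : Tendsto (fun N : ℕ => (1 / 2 : ℝ) ^ (N + 1)) atTop (𝓝[>] 0) := by
    rw [tendsto_nhdsWithin_iff]
    refine ⟨?_, Eventually.of_forall fun n => by
      show (0 : ℝ) < _
      positivity⟩
    exact (tendsto_pow_atTop_nhds_zero_of_lt_one (by norm_num) (by norm_num)).comp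
      (tendsto_add_atTop_nat 1)
  have hball : ∀ N : ℕ, Metric.closedBall ((((⌊(2 : ℝ) ^ N * x⌋₊ : ℕ) : ℝ) + 1 / 2) / 2 ^ N)
      ((1 / 2 : ℝ) ^ (N + 1)) = Set.Icc ((⌊(2 : ℝ) ^ N * x⌋₊ : ℝ) / 2 ^ N)
        (((⌊(2 : ℝ) ^ N * x⌋₊ : ℝ) + 1) / 2 ^ N) := by
    intro N
    rw [Real.closedBall_eq_Icc]
    congr 1
    · rw [one_div_pow, pow_succ]
      field_simp
      ring
    · rw [one_div_pow, pow_succ]
      field_simp
      ring
  have hJ : ∀ N : ℕ, x ∈ J N ⌊(2 : ℝ) ^ N * x⌋₊ := fun N => (mem_J hx01.1).2 rfl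
  have h := hx (l := atTop) (fun N : ℕ => (((⌊(2 : ℝ) ^ N * x⌋₊ : ℕ) : ℝ) + 1 / 2) / 2 ^ N)
    (fun N => (1 / 2 : ℝ) ^ (N + 1)) hlim (Eventually.of_forall fun N => by
      rw [one_mul, hball N]
      exact ⟨(hJ N).1, (hJ N).2.le⟩)
  rw [Set.indicator_of_mem hx01] at h
  refine h.congr fun N => ?_
  have hk := floor_lt (N := N) hx01
  rw [hball N, EN_avg hf N _ hk x (hJ N)]
  have e1 : (Set.Icc ((⌊(2 : ℝ) ^ N * x⌋₊ : ℝ) / 2 ^ N)
      (((⌊(2 : ℝ) ^ N * x⌋₊ : ℝ) + 1) / 2 ^ N) : Set ℝ) =ᵐ[volume] J N ⌊(2 : ℝ) ^ N * x⌋₊ :=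
    Ico_ae_eq_Icc.symm
  rw [setAverage_eq, setIntegral_congr_set e1, measureReal_congr e1, real_J]
  have e2 : ((1 / 2 : ℝ) ^ N)⁻¹ = 2 ^ N := by rw [one_div, inv_pow, inv_inv]
  rw [e2, RCLike.real_smul_eq_coe_mul]
  have e3 : ∫ y in J N ⌊(2 : ℝ) ^ N * x⌋₊, (Set.Ico (0 : ℝ) 1).indicator f y =
      ∫ y in J N ⌊(2 : ℝ) ^ N * x⌋₊, f y :=
    setIntegral_congr_fun (meas_J _ _) fun y hy => Set.indicator_of_mem (J_sub hk hy) f
  rw [e3]
  push_cast
  rfl

/-- part 2 -/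
theorem exp2 {r : ℝ} (hr : 1 ≤ r) {f : ℝ → 𝕜} {M : ℝ} (hf : MemLp f (ENNReal.ofReal r) leb)
    (hM : ∀ N : ℕ, ∫ x, ‖EN N f x‖ ^ r ∂leb ≤ M) : ∫ x, ‖f x‖ ^ r ∂leb ≤ M := by
  have hr0 : 0 < r := by linarith
  have hfi : Integrable f leb := hf.integrable (by
    rw [← ENNReal.ofReal_one]; exact ENNReal.ofReal_le_ofReal hr)
  have hfr : Integrable (fun x => ‖f x‖ ^ r) leb := by
    have := hf.integrable_norm_rpow (by simpa using hr0) ENNReal.ofReal_ne_top
    rwa [ENNReal.toReal_ofReal hr0.le] at this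
  have hM0 : 0 ≤ M := le_trans (integral_nonneg fun x => by positivity) (hM 0)
  rw [integral_eq_lintegral_of_nonneg_ae (Eventually.of_forall fun x => by positivity) hfr.1]
  refine ENNReal.toReal_le_of_le_ofReal hM0 ?_
  have h1 : ∫⁻ x, ENNReal.ofReal (‖f x‖ ^ r) ∂leb ≤
      ∫⁻ x, liminf (fun N => ENNReal.ofReal (‖EN N f x‖ ^ r)) atTop ∂leb := by
    apply lintegral_mono_ae
    filter_upwards [EN_tendsto hfi] with x hx
    have h2 : Tendsto (fun N => ENNReal.ofReal (‖EN N f x‖ ^ r)) atTop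
        (𝓝 (ENNReal.ofReal (‖f x‖ ^ r))) :=
      ENNReal.tendsto_ofReal ((hx.norm).rpow_const (Or.inr hr0.le))
    rw [h2.liminf_eq]
  refine h1.trans ((lintegral_liminf_le' fun N =>
    (EN_norm_integrable N f r).1.aemeasurable.ennreal_ofReal).trans ?_)
  have h3 : ∀ N, ∫⁻ x, ENNReal.ofReal (‖EN N f x‖ ^ r) ∂leb ≤ ENNReal.ofReal M := by
    intro N
    rw [← ofReal_integral_eq_lintegral_ofReal (EN_norm_integrable N f r)
      (Eventually.of_forall fun x => by positivity)]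
    exact ENNReal.ofReal_le_ofReal (hM N)
  exact liminf_le_of_le (by isBoundedDefault) fun b hb => by
    obtain ⟨N, hN⟩ := hb.exists
    exact hN.trans (h3 N)

theorem exp : S_EXP := by
  intro 𝕜 _
  exact ⟨fun r hr N f hf => exp1 hr N hf, fun r hr f M hf hM => exp2 hr hf hM,
    fun N f Φ x hx => exp3 N f Φ hx⟩

end Pool.Agent.Y417.HG
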