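import Pool.Agent.Y105.HG.Stm

/-!
Dyadic partial sums of the Haar expansion: they are the averages over dyadic intervals
(statement `S_EXP` of `Pool.Agent.Y105.HG.Stm`).
-/

set_option autoImplicit false

open MeasureTheory Filter Topology
open scoped ENNReal

namespace Pool.Agent.Y417.HG

open Pool.Agent.Y105.HG

/-- dyadic intervals -/
def J (N k : ℕ) : Set ℝ := Set.Ico ((k : ℝ) / 2 ^ N) (((k : ℝ) + 1) / 2 ^ N)

lemma meas_J (N k : ℕ) : MeasurableSet (J N k) := measurableSet_Ico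

lemma vol_J (N k : ℕ) : volume (J N k) = ENNReal.ofReal ((1 / 2) ^ N) := by
  unfold J
  rw [Real.volume_Ico, ← sub_div, add_sub_cancel_left, one_div_pow]

lemma J_sub {N k : ℕ} (hk : k < 2 ^ N) : J N k ⊆ Set.Ico 0 1 := by
  intro x hx
  have h2 : (0 : ℝ) < 2 ^ N := by positivity
  have hk' : (k : ℝ) + 1 ≤ 2 ^ N := by exact_mod_cast hk
  refine ⟨le_trans (by positivity) hx.1, lt_of_lt_of_le hx.2 ?_⟩
  rw [div_le_one h2]
  exact hk'

lemma mem_J {N k : ℕ} {x : ℝ} (hx : 0 ≤ x) : x ∈ J N k ↔ ⌊(2 : ℝ) ^ N * x⌋₊ = k := by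
  have h2 : (0 : ℝ) < 2 ^ N := by positivity
  rw [Nat.floor_eq_iff (mul_nonneg h2.le hx)]
  unfold J
  rw [Set.mem_Ico, div_le_iff₀ h2, lt_div_iff₀ h2, mul_comm x]

lemma mem_J' {N k : ℕ} {x : ℝ} (hx : x ∈ J N k) : ⌊(2 : ℝ) ^ N * x⌋₊ = k :=
  (mem_J (le_trans (by positivity) hx.1)).1 hx

lemma J_disj {N k l : ℕ} (h : k ≠ l) : Disjoint (J N k) (J N l) := by
  rw [Set.disjoint_left]
  intro x hx hy
  exact h ((mem_J' hx).symm.trans (mem_J' hy))

lemma J_left (N k : ℕ) : J (N + 1) (2 * k) =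
    Set.Ico ((k : ℝ) / 2 ^ N) (((k : ℝ) + 1 / 2) / 2 ^ N) := by
  unfold J
  push_cast
  rw [pow_succ]
  congr 1
  · field_simp
  · field_simp
    try ring

lemma J_right (N k : ℕ) : J (N + 1) (2 * k + 1) =
    Set.Ico (((k : ℝ) + 1 / 2) / 2 ^ N) (((k : ℝ) + 1) / 2 ^ N) := by
  unfold J
  push_cast
  rw [pow_succ]
  congr 1
  · field_simp
    try ring
  · field_simp
    try ring

lemma J_split (N k : ℕ) : J N k = J (N + 1) (2 * k) ∪ J (N + 1) (2 * k + 1) := by
  rw [J_left, J_right]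
  unfold J
  rw [Set.Ico_union_Ico_eq_Ico]
  · gcongr
    linarith
  · gcongr
    linarith

lemma floor_lt {N : ℕ} {x : ℝ} (hx : x ∈ Set.Ico (0 : ℝ) 1) : ⌊(2 : ℝ) ^ N * x⌋₊ < 2 ^ N := by
  rw [Nat.floor_lt (mul_nonneg (by positivity) hx.1)]
  push_cast
  have : (0:ℝ) < 2 ^ N := by positivity
  nlinarith [hx.2]

lemma floor_add (n m : ℕ) (x : ℝ) : ⌊(2 : ℝ) ^ n * x⌋₊ = ⌊(2 : ℝ) ^ (n + m) * x⌋₊ / 2 ^ m := by
  have : (2:ℝ) ^ n * x = ((2:ℝ) ^ (n + m) * x) / ((2 ^ m : ℕ) : ℝ) := by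
    push_cast; rw [pow_add]; field_simp
  rw [this, Nat.floor_div_natCast]

lemma iUnion_J (N : ℕ) : ⋃ k ∈ Finset.range (2 ^ N), J N k = Set.Ico (0 : ℝ) 1 := by
  ext x
  simp only [Set.mem_iUnion, Finset.mem_range]
  constructor
  · rintro ⟨k, hk, hx⟩
    exact J_sub hk hx
  · intro hx
    exact ⟨_, floor_lt hx, (mem_J hx.1).2 rfl⟩

lemma leb_eq : leb = volume.restrict (Set.Ico (0 : ℝ) 1) := by
  unfold leb
  exact (Measure.restrict_congr_set Ico_ae_eq_Icc).symm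

section
variable {E : Type} [NormedAddCommGroup E]

lemma int_J {f : ℝ → E} (hf : Integrable f leb) {N k : ℕ} (hk : k < 2 ^ N) :
    IntegrableOn f (J N k) volume := by
  rw [leb_eq] at hf
  exact hf.mono_measure (Measure.restrict_mono (J_sub hk) le_rfl)

lemma leb_restrict {N k : ℕ} (hk : k < 2 ^ N) : leb.restrict (J N k) = volume.restrict (J N k) := by
  rw [leb_eq, Measure.restrict_restrict (meas_J N k), Set.inter_eq_left.2 (J_sub hk)]

variable [NormedSpace ℝ E]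

lemma int_split {f : ℝ → E} (hf : Integrable f leb) (N : ℕ) :
    ∫ x, f x ∂leb = ∑ k ∈ Finset.range (2 ^ N), ∫ x in J N k, f x := by
  rw [leb_eq, ← iUnion_J N, integral_biUnion_finset]
  · exact fun k _ => meas_J N k
  · intro a _ b _ hab
    exact J_disj hab
  · exact fun k hk => int_J hf (Finset.mem_range.1 hk)

lemma int_half {f : ℝ → E} (hf : Integrable f leb) {N k : ℕ} (hk : k < 2 ^ N) :
    ∫ x in J N k, f x = (∫ x in J (N + 1) (2 * k), f x) + ∫ x in J (N + 1) (2 * k + 1), f x := by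
  rw [J_split, setIntegral_union (J_disj (by omega)) (meas_J _ _)
    (int_J hf (by rw [pow_succ]; omega)) (int_J hf (by rw [pow_succ]; omega))]

end

variable {𝕜 : Type} [RCLike 𝕜]

lemma hs_some (n : ℕ) (k : Fin (2 ^ n)) (x : ℝ) : hs (some ⟨n, k⟩) x =
    (J (n + 1) (2 * (k : ℕ))).indicator (fun _ => (1 : ℝ)) x -
      (J (n + 1) (2 * (k : ℕ) + 1)).indicator (fun _ => (1 : ℝ)) x := by
  rw [J_left, J_right]
  rfl

lemma cf_none (f : ℝ → 𝕜) : cf none f = ∫ x, f x ∂leb := by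
  unfold cf
  apply integral_congr_ae
  exact Eventually.of_forall fun x => by simp [hs]

lemma cf_some {f : ℝ → 𝕜} (hf : Integrable f leb) (n : ℕ) (k : Fin (2 ^ n)) :
    cf (some ⟨n, k⟩) f = (∫ x in J (n + 1) (2 * (k : ℕ)), f x) -
      ∫ x in J (n + 1) (2 * (k : ℕ) + 1), f x := by
  have hk := k.2
  have h1 : 2 * (k : ℕ) < 2 ^ (n + 1) := by rw [pow_succ]; omega
  have h2 : 2 * (k : ℕ) + 1 < 2 ^ (n + 1) := by rw [pow_succ]; omega
  unfold cf
  have e : ∀ x, ((hs (some ⟨n, k⟩) x : ℝ) : 𝕜) * f x =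
      (J (n + 1) (2 * (k : ℕ))).indicator f x - (J (n + 1) (2 * (k : ℕ) + 1)).indicator f x := by
    intro x
    rw [hs_some]
    by_cases a1 : x ∈ J (n + 1) (2 * (k : ℕ)) <;> by_cases a2 : x ∈ J (n + 1) (2 * (k : ℕ) + 1) <;>
      simp [a1, a2]
  simp_rw [e]
  rw [integral_sub (hf.indicator (meas_J _ _)) (hf.indicator (meas_J _ _)),
    integral_indicator (meas_J _ _), integral_indicator (meas_J _ _), leb_restrict h1,
    leb_restrict h2]

lemma EN_sum (N : ℕ) (f : ℝ → 𝕜) (x : ℝ) : EN N f x = cf none f +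
    ∑ n ∈ Finset.range N, ∑ k : Fin (2 ^ n),
      (2 : 𝕜) ^ n * cf (some ⟨n, k⟩) f * ((hs (some ⟨n, k⟩) x : ℝ) : 𝕜) := by
  unfold EN FN
  rw [Finset.sum_insert (by simp), Finset.sum_map, Finset.sum_sigma]
  simp [lev, hs]

lemma EN_zero (f : ℝ → 𝕜) (x : ℝ) : EN 0 f x = cf none f := by
  rw [EN_sum, Finset.sum_range_zero, add_zero]

lemma EN_succ (N : ℕ) (f : ℝ → 𝕜) (x : ℝ) : EN (N + 1) f x = EN N f x +
    ∑ k : Fin (2 ^ N), (2 : 𝕜) ^ N * cf (some ⟨N, k⟩) f * ((hs (some ⟨N, k⟩) x : ℝ) : 𝕜) := by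
  rw [EN_sum, EN_sum, Finset.sum_range_succ, add_assoc]

/-- value of the Haar functions on the dyadic intervals -/
lemma hs_left {n : ℕ} {k : Fin (2 ^ n)} {x : ℝ} (hx : x ∈ J (n + 1) (2 * (k : ℕ))) :
    hs (some ⟨n, k⟩) x = 1 := by
  rw [hs_some, Set.indicator_of_mem hx, Set.indicator_of_notMem, sub_zero]
  intro h
  have := (mem_J' h).symm.trans (mem_J' hx)
  omega

lemma hs_right {n : ℕ} {k : Fin (2 ^ n)} {x : ℝ} (hx : x ∈ J (n + 1) (2 * (k : ℕ) + 1)) :
    hs (some ⟨n, k⟩) x = -1 := by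
  rw [hs_some, Set.indicator_of_mem hx, Set.indicator_of_notMem, zero_sub]
  intro h
  have := (mem_J' h).symm.trans (mem_J' hx)
  omega

lemma hs_out {n : ℕ} {k : Fin (2 ^ n)} {x : ℝ} (hx : x ∉ J n k) : hs (some ⟨n, k⟩) x = 0 := by
  rw [J_split, Set.mem_union, not_or] at hx
  rw [hs_some, Set.indicator_of_notMem hx.1, Set.indicator_of_notMem hx.2, sub_zero]

/-- the partial sums are the averages over the dyadic intervals -/
lemma EN_avg {f : ℝ → 𝕜} (hf : Integrable f leb) (N : ℕ) : ∀ (k : ℕ), k < 2 ^ N → ∀ x ∈ J N k,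
    EN N f x = (2 : 𝕜) ^ N * ∫ y in J N k, f y := by
  induction N with
  | zero =>
    intro k hk x _
    have hk0 : k = 0 := by simpa using hk
    subst hk0
    rw [EN_zero, cf_none, int_split hf 0]
    simp
  | succ N ih =>
    intro k hk x hx
    have hx0 : 0 ≤ x := (J_sub hk hx).1
    have hk2 : k / 2 < 2 ^ N := by rw [pow_succ] at hk; omega
    have hxN : x ∈ J N (k / 2) := by
      rw [mem_J hx0]
      have := floor_add N 1 x
      rw [mem_J' hx, pow_one] at this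
      exact this
    rw [EN_succ, ih (k / 2) hk2 x hxN, int_half hf hk2,
      Finset.sum_eq_single (⟨k / 2, hk2⟩ : Fin (2 ^ N)), cf_some hf]
    · rcases Nat.even_or_odd' k with ⟨c, hc | hc⟩
      · have hc2 : k / 2 = c := by omega
        have e : 2 * (k / 2) = k := by omega
        rw [hs_left (by simpa [e] using hx)]
        simp only [e, RCLike.ofReal_one]
        rw [pow_succ]
        ring
      · have hc2 : k / 2 = c := by omega
        have e : 2 * (k / 2) + 1 = k := by omega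
        rw [hs_right (by simpa [e] using hx)]
        simp only [e, RCLike.ofReal_neg, RCLike.ofReal_one]
        rw [pow_succ]
        ring
    · intro b _ hb
      rw [hs_out, RCLike.ofReal_zero, mul_zero]
      intro h
      apply hb
      apply Fin.ext
      exact (mem_J' h).symm.trans (mem_J' hxN)
    · intro h
      exact absurd (Finset.mem_univ _) h

/-- the partial sums are constant on the dyadic intervals -/
lemma EN_const (f : ℝ → 𝕜) (N k : ℕ) {x y : ℝ} (hx : x ∈ J N k) (hy : y ∈ J N k) :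
    EN N f x = EN N f y := by
  rw [EN_sum, EN_sum]
  congr 1
  refine Finset.sum_congr rfl fun n hn => Finset.sum_congr rfl fun i _ => ?_
  congr 2
  have hn' : n + 1 ≤ N := Finset.mem_range.1 hn
  obtain ⟨e, rfl⟩ := Nat.exists_eq_add_of_le hn'
  have hx0 : 0 ≤ x := le_trans (by positivity) hx.1
  have hy0 : 0 ≤ y := le_trans (by positivity) hy.1
  have h1 : ⌊(2 : ℝ) ^ (n + 1) * x⌋₊ = ⌊(2 : ℝ) ^ (n + 1) * y⌋₊ := by
    rw [floor_add (n + 1) e x, floor_add (n + 1) e y, mem_J' hx, mem_J' hy]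
  have h2 : ∀ l, x ∈ J (n + 1) l ↔ y ∈ J (n + 1) l := fun l => by
    rw [mem_J hx0, mem_J hy0, h1]
  rw [hs_some, hs_some]
  congr 1
  · by_cases a1 : x ∈ J (n + 1) (2 * (i : ℕ))
    · rw [Set.indicator_of_mem a1, Set.indicator_of_mem ((h2 _).1 a1)]
    · rw [Set.indicator_of_notMem a1, Set.indicator_of_notMem (fun h => a1 ((h2 _).2 h))]
  · by_cases a1 : x ∈ J (n + 1) (2 * (i : ℕ) + 1)
    · rw [Set.indicator_of_mem a1, Set.indicator_of_mem ((h2 _).1 a1)]
    · rw [Set.indicator_of_notMem a1, Set.indicator_of_notMem (fun h => a1 ((h2 _).2 h))]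

end Pool.Agent.Y417.HG
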